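import Mathlib
import Pool.Agent.Q148.TChar.Basic

/-!
# MP_67c2f3: an autocharacterized open summand of finite index which is not T-characterized

`X = (⊕_ℕ Z/3) × Z/2` with the discrete topology, `H = (⊕_ℕ Z/3) × 0`.
-/

open Filter Topology
open Pool.Agent.Q148.TChar

namespace Pool.Agent.Results.MP_67c2f3_gt.NotT

/-- The group `(⊕_ℕ Z/3) × Z/2`. -/
def X : Type := (ℕ →₀ ZMod 3) × ZMod 2

noncomputable instance : AddCommGroup X :=
  inferInstanceAs (AddCommGroup ((ℕ →₀ ZMod 3) × ZMod 2))

/-- The discrete topology on `X`. -/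
instance : TopologicalSpace X := ⊥

instance : DiscreteTopology X := ⟨rfl⟩

/-- First coordinate. -/
noncomputable def fstHom : X →+ (ℕ →₀ ZMod 3) := AddMonoidHom.fst _ _

/-- Second coordinate. -/
noncomputable def sndHom : X →+ ZMod 2 := AddMonoidHom.snd _ _

/-- `H = (⊕_ℕ Z/3) × 0`. -/
noncomputable def H : AddSubgroup X := sndHom.ker

/-- `Z = 0 × Z/2`. -/
noncomputable def Z : AddSubgroup X := fstHom.ker

/-- The element `(0, 1)`. -/
noncomputable def d : X := ((0 : ℕ →₀ ZMod 3), (1 : ZMod 2))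

theorem mem_H (x : X) : x ∈ H ↔ x.2 = 0 := Iff.rfl

theorem mem_Z (x : X) : x ∈ Z ↔ x.1 = 0 := Iff.rfl

theorem add_fst (x y : X) : (x + y).1 = x.1 + y.1 := rfl

theorem add_snd (x y : X) : (x + y).2 = x.2 + y.2 := rfl

theorem three_nsmul_fin (f : ℕ →₀ ZMod 3) : (3 : ℕ) • f = 0 := by
  ext n
  rw [Finsupp.smul_apply]
  have : ∀ a : ZMod 3, (3 : ℕ) • a = 0 := by decide
  rw [this]
  rfl

theorem two_d : (2 : ℕ) • d = 0 := by
  refine Prod.ext ?_ ?_
  · show (2 : ℕ) • (0 : ℕ →₀ ZMod 3) = 0
    simp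
  · show (2 : ℕ) • (1 : ZMod 2) = 0
    decide

/-- Every element of `X` is the sum of an element killed by `3` and a multiple of `d`. -/
theorem decomp (x : X) : ∃ a : X, (3 : ℕ) • a = 0 ∧ (x = a ∨ x = a + d) := by
  obtain ⟨f, b⟩ := x
  refine ⟨((f, 0) : (ℕ →₀ ZMod 3) × ZMod 2), ?_, ?_⟩
  · refine Prod.ext ?_ ?_
    · exact three_nsmul_fin f
    · show (3 : ℕ) • (0 : ZMod 2) = 0
      decide
  · have : ∀ b : ZMod 2, b = 0 ∨ b = 1 := by decide
    rcases this b with rfl | rfl
    · left; rfl
    · right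
      refine Prod.ext ?_ ?_
      · show f = f + 0
        simp
      · show (1 : ZMod 2) = 0 + 1
        simp

theorem three_char (χ : X →ₜ+ UnitAddCircle) (a : X) (ha : (3 : ℕ) • a = 0) :
    ((3 : ℕ) • χ) a = 0 := by
  rw [nsmul_apply', ← map_nsmul, ha, map_zero]

theorem char_d (χ : X →ₜ+ UnitAddCircle) (h : χ d ≠ 0) : χ d = half := by
  apply eq_half _ h
  rw [← map_nsmul, two_d, map_zero]

theorem three_char_d (χ : X →ₜ+ UnitAddCircle) (h : χ d ≠ 0) : ((3 : ℕ) • χ) d = half := by
  rw [nsmul_apply', char_d χ h]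
  have : (3 : ℕ) • half = (2 : ℕ) • half + half := by
    rw [show (3 : ℕ) = 2 + 1 from rfl, add_nsmul, one_nsmul]
  rw [this, two_half, zero_add]

theorem not_t : ¬ TCharacterized H := by
  apply not_tCharacterized d 3
  · intro χ χ' h h'
    ext x
    obtain ⟨a, ha, rfl | rfl⟩ := decomp x
    · rw [three_char χ _ ha, three_char χ' _ ha]
    · rw [map_add, map_add, three_char χ _ ha, three_char χ' _ ha, three_char_d χ h,
        three_char_d χ' h']
  · intro χ h hc
    have := three_char_d χ h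
    rw [hc] at this
    exact half_ne this.symm
  · rw [mem_H]
    show (1 : ZMod 2) ≠ 0
    decide

theorem H_open : IsOpen (H : Set X) := isOpen_discrete _

theorem H_finiteIndex : H.FiniteIndex := by
  have : Finite (X ⧸ H) :=
    Finite.of_injective (QuotientAddGroup.kerLift sndHom)
      (QuotientAddGroup.kerLift_injective sndHom)
  exact AddSubgroup.finiteIndex_of_finite_quotient

/-- The coordinate characters of `H`. -/
noncomputable def u (n : ℕ) : H →ₜ+ UnitAddCircle where
  toFun x := ZMod.toAddCircle ((x : X).1 n)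
  map_zero' := by
    show ZMod.toAddCircle (0 : ZMod 3) = 0
    simp
  map_add' x y := by
    show ZMod.toAddCircle ((x : X).1 n + (y : X).1 n) = _
    rw [map_add]
  continuous_toFun := continuous_of_discreteTopology

theorem H_auto : Autocharacterized H := by
  refine ⟨u, ?_, ?_⟩
  · intro hev
    obtain ⟨n, hn⟩ := hev.exists
    let x : X := ((Finsupp.single n 1, 0) : (ℕ →₀ ZMod 3) × ZMod 2)
    have hx : x ∈ H := rfl
    have h1 : u n ⟨x, hx⟩ = 0 := by rw [hn]; rfl
    have h2 : ZMod.toAddCircle ((Finsupp.single n (1 : ZMod 3)) n) = 0 := h1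
    rw [Finsupp.single_eq_same] at h2
    have h3 : (1 : ZMod 3) = 0 := ZMod.toAddCircle_injective 3 (by rw [h2, map_zero])
    revert h3
    decide
  · rintro ⟨x, hx⟩
    apply tendsto_const_nhds.congr'
    have hfin : (x.1.support : Set ℕ).Finite := Finset.finite_toSet _
    have := hfin.compl_mem_cofinite
    rw [Nat.cofinite_eq_atTop] at this
    filter_upwards [this] with n hn
    show (0 : UnitAddCircle) = ZMod.toAddCircle (x.1 n)
    have : x.1 n = 0 := by
      by_contra h
      exact hn (by simpa using h)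
    rw [this, map_zero]

/-- The bijection `H × Z → X`. -/
noncomputable def e : (H × Z) ≃ₜ X where
  toFun p := (p.1 : X) + (p.2 : X)
  invFun x := (⟨((x.1, 0) : (ℕ →₀ ZMod 3) × ZMod 2), rfl⟩,
    ⟨(((0 : ℕ →₀ ZMod 3), x.2) : (ℕ →₀ ZMod 3) × ZMod 2), rfl⟩)
  left_inv := by
    rintro ⟨⟨x, hx⟩, ⟨y, hy⟩⟩
    rw [mem_H] at hx
    rw [mem_Z] at hy
    refine Prod.ext (Subtype.ext (Prod.ext ?_ ?_)) (Subtype.ext (Prod.ext ?_ ?_))
    · show x.1 + y.1 = x.1
      rw [hy, add_zero]
    · show (0 : ZMod 2) = x.2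
      rw [hx]
    · show (0 : ℕ →₀ ZMod 3) = y.1
      rw [hy]
    · show x.2 + y.2 = y.2
      rw [hx, zero_add]
  right_inv := by
    intro x
    refine Prod.ext ?_ ?_
    · show x.1 + 0 = x.1
      rw [add_zero]
    · show 0 + x.2 = x.2
      rw [zero_add]
  continuous_toFun := continuous_of_discreteTopology
  continuous_invFun := continuous_of_discreteTopology

theorem H_summand : IsTopDirectSummand H := ⟨Z, e, fun _ _ => rfl⟩

/-- There are a countable discrete abelian group `X` and an (open) subgroup `H` of finite index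
which is autocharacterized and a topological direct summand of `X`, but is not
`T`-characterized in `X`. -/
theorem result : ∃ (X : Type) (_ : TopologicalSpace X) (_ : AddCommGroup X) (H : AddSubgroup X),
    IsTopologicalAddGroup X ∧ DiscreteTopology X ∧ Countable X ∧
    IsOpen (H : Set X) ∧ H.FiniteIndex ∧ Autocharacterized H ∧ IsTopDirectSummand H ∧
    ¬ TCharacterized H := by
  refine ⟨X, inferInstance, inferInstance, H, ?_, inferInstance, ?_, H_open, H_finiteIndex,
    H_auto, H_summand, not_t⟩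
  · infer_instance
  · exact inferInstanceAs (Countable ((ℕ →₀ ZMod 3) × ZMod 2))

end Pool.Agent.Results.MP_67c2f3_gt.NotT
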